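import Pool.Agent.H56.ER2.Targets

/-!
# MP_816b90_co: the place where the two outgoing paths meet (ASI).
-/

set_option autoImplicit false

namespace Pool.Agent.H20.ER2

open Pool.Agent.H48.ER Pool.Agent.H52.ER2 Pool.Agent.H66.ER2 Pool.Agent.H56.ER2

/-- a segment of a path in function form -/
theorem seg_ip {V : Type} {G : SimpleGraph V} {n : ℕ} {g : ℕ → V} (h : PF G n g) {i j : ℕ}
    (hij : i ≤ j) (hj : j ≤ n) : IP G (j - i) (g i) (g j) (seg g i j) := by
  refine ⟨fun k => g (i + k), by simp, ?_, ?_, ?_, ?_⟩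
  · show g (i + (j - i)) = g j
    congr 1; omega
  · intro a b ha hb e
    have := h.inj _ _ (by omega) (by omega) e
    omega
  · intro a b ha hb
    show G.Adj (g (i + a)) (g (i + b)) ↔ _
    rw [h.adj _ _ (by omega) (by omega)]
    omega
  · ext w
    constructor
    · rintro ⟨k, hk1, hk2, rfl⟩
      exact ⟨k - i, by omega, by show g (i + (k - i)) = g k; congr 1; omega⟩
    · rintro ⟨k, hk, rfl⟩
      exact ⟨i + k, by omega, by omega, rfl⟩

/-- a greatest element -/
theorem grt (q : ℕ) (P : ℕ → Prop) (h : ∃ l, l ≤ q ∧ P l) :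
    ∃ k, k ≤ q ∧ P k ∧ ∀ l, k < l → l ≤ q → ¬ P l := by
  classical
  have hex : ∃ m, m ≤ q ∧ P (q - m) := by
    obtain ⟨l, hl, hP⟩ := h
    exact ⟨q - l, Nat.sub_le _ _, by
      have e : q - (q - l) = l := by omega
      rw [e]; exact hP⟩
  obtain ⟨hm, hPm⟩ := Nat.find_spec hex
  refine ⟨q - Nat.find hex, Nat.sub_le _ _, hPm, ?_⟩
  intro l h1 h2 hl
  refine Nat.find_min hex (m := q - l) (by omega) ⟨Nat.sub_le _ _, ?_⟩
  have e : q - (q - l) = l := by omega
  rw [e]; exact hl

/-- a least element -/
theorem lst (q : ℕ) (P : ℕ → Prop) (h : ∃ l, l ≤ q ∧ P l) :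
    ∃ k, k ≤ q ∧ P k ∧ ∀ l, l < k → ¬ P l := by
  classical
  have hex : ∃ m, P m := by
    obtain ⟨l, hl, hP⟩ := h
    exact ⟨l, hP⟩
  obtain ⟨l, hl, hP⟩ := h
  refine ⟨Nat.find hex, (Nat.find_min' hex hP).trans hl, Nat.find_spec hex, ?_⟩
  intro l h1
  exact Nat.find_min hex h1

theorem pf_ASI (hHOL : T_HOL) : T_ASI := by
  intro V G v n z p q y x hS hF hO h
  have hp := h.p2
  have hq := h.q2
  have hlast : G.Adj (y (p - 1)) (x q) := by
    rw [h.xy, h.py.adj _ _ (by omega) le_rfl]
    omega
  obtain ⟨i, hi, ⟨hi1, hil⟩, hmin⟩ := lst (p - 1) (fun i => 1 ≤ i ∧ ∃ l, l ≤ q ∧ G.Adj (y i) (x l))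
    ⟨p - 1, le_rfl, by omega, q, le_rfl, hlast⟩
  have hpre : ∀ e, 1 ≤ e → e < i → ∀ l, l ≤ q → ¬ G.Adj (y e) (x l) := by
    intro e h1 h2 l hl ha
    exact hmin e h2 ⟨h1, l, hl, ha⟩
  have hdis : ∀ e, e ≤ i → ∀ l, l ≤ q → y e ≠ x l := by
    intro e he l hl heq
    rcases Nat.lt_or_ge e 1 with h0 | h0
    · have e0 : e = 0 := by omega
      subst e0
      exact (h.ny l hl).1 heq.symm
    · rcases Nat.lt_or_ge e 2 with h2 | h2
      · have e1 : e = 1 := by omega
        subst e1
        have ha : G.Adj (y 0) (y 1) := by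
          rw [h.py.adj _ _ (by omega) (by omega)]; omega
        rw [heq] at ha
        have hl0 : l = 0 := (h.ny l hl).2.1 ha
        subst hl0
        exact (h.nx 1 (by omega)).1 heq
      · have ha : G.Adj (y (e - 1)) (y e) := by
          rw [h.py.adj _ _ (by omega) (by omega)]; omega
        rw [heq] at ha
        exact hpre (e - 1) (by omega) (by omega) l hl ha
  obtain ⟨j, hjq, hj, hjm⟩ := lst q (fun l => G.Adj (y i) (x l)) hil
  obtain ⟨k, hkq, hk, hkm⟩ := grt q (fun l => G.Adj (y i) (x l)) hil
  have hj1 : 1 ≤ j := by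
    rcases Nat.lt_or_ge j 1 with h0 | h0
    · have e0 : j = 0 := by omega
      subst e0
      have := (h.nx i (by omega)).2.1 hj.symm
      omega
    · exact h0
  have hjk : j ≤ k := by
    rcases Nat.lt_or_ge k j with h0 | h0
    · exact absurd hj (hkm j h0 hjq)
    · exact h0
  have hiy : ∀ a, a ≤ p → (y a = y i ↔ a = i) := fun a ha =>
    ⟨fun e => h.py.inj _ _ ha (by omega) e, fun e => by rw [e]⟩
  have h0y : ∀ a, a ≤ p → (y a = y 0 ↔ a = 0) := fun a ha =>
    ⟨fun e => h.py.inj _ _ ha (by omega) e, fun e => by rw [e]⟩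
  have hpar : Even (i + j) := by
    have := hHOL V G (i - 0) (j - 0) (y 0) (y i) (x 0) (x j) (seg y 0 i) (seg x 0 j) hS.cls.noh
      (seg_ip h.py (Nat.zero_le _) (by omega)) (seg_ip h.px (Nat.zero_le _) hjq) ?_ ?_ (by omega)
    · simpa using this
    · rw [Set.disjoint_left]
      rintro w ⟨a, _, ha, rfl⟩ ⟨b, _, hb, hab⟩
      exact hdis a ha b (by omega) hab.symm
    · rintro w ⟨a, _, ha, rfl⟩ u ⟨b, _, hb, rfl⟩
      have hbj : x b = x j ↔ b = j :=
        ⟨fun e => h.px.inj _ _ (by omega) (by omega) e, fun e => by rw [e]⟩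
      have hb0 : x b = x 0 ↔ b = 0 :=
        ⟨fun e => h.px.inj _ _ (by omega) (by omega) e, fun e => by rw [e]⟩
      rw [h0y a (by omega), hiy a (by omega), hbj, hb0]
      rcases Nat.lt_or_ge a 1 with h1 | h1
      · have e0 : a = 0 := by omega
        subst e0
        rw [(h.ny b (by omega)).2]
        omega
      · rcases Nat.lt_or_ge a i with h2 | h2
        · have := hpre a h1 h2 b (by omega)
          constructor
          · intro h3
            exact absurd h3 this
          · intro h3
            omega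
        · have e0 : a = i := by omega
          subst e0
          constructor
          · intro h3
            right
            refine ⟨rfl, ?_⟩
            rcases Nat.lt_or_ge b j with h4 | h4
            · exact absurd h3 (hjm b h4)
            · omega
          · intro h3
            have e1 : b = j := by omega
            rw [e1]; exact hj
  have hev : Even (i - 0 + (q - k) + 1) := by
    refine hO _ (y 0) (x q) (seg y 0 i ∪ seg x k q) ⟨?_, h.ay, ?_, ?_, ?_⟩
    · refine (seg_ip h.py (Nat.zero_le _) (by omega)).append (seg_ip h.px hkq le_rfl) ?_ ?_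
      · rw [Set.disjoint_left]
        rintro w ⟨a, _, ha, rfl⟩ ⟨b, _, hb, hab⟩
        exact hdis a ha b (by omega) hab.symm
      · rintro w ⟨a, _, ha, rfl⟩ u ⟨b, hb1, hb, rfl⟩
        have hbk : x b = x k ↔ b = k :=
          ⟨fun e => h.px.inj _ _ (by omega) (by omega) e, fun e => by rw [e]⟩
        rw [hiy a (by omega), hbk]
        rcases Nat.lt_or_ge a 1 with h1 | h1
        · have e0 : a = 0 := by omega
          subst e0
          rw [(h.ny b (by omega)).2]
          omega
        · rcases Nat.lt_or_ge a i with h2 | h2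
          · have := hpre a h1 h2 b (by omega)
            constructor
            · intro h3
              exact absurd h3 this
            · intro h3
              omega
          · have e0 : a = i := by omega
            subst e0
            constructor
            · intro h3
              refine ⟨rfl, ?_⟩
              rcases Nat.lt_or_ge k b with h4 | h4
              · exact absurd h3 (hkm b h4 (by omega))
              · omega
            · intro h3
              have e1 : b = k := by omega
              rw [e1]; exact hk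
    · rw [h.xy]; exact h.b
    · rintro w (⟨a, _, ha, rfl⟩ | ⟨b, hb1, hb, rfl⟩) hw
      · rw [h.oAy a (by omega) hw]
      · have := h.oAx b hb hw
        omega
    · rintro w (⟨a, _, ha, rfl⟩ | ⟨b, hb1, hb, rfl⟩) hw
      · have := h.oBy a (by omega) hw
        omega
      · rw [h.oBx b hb hw]
  have hqe := h.eq
  have hodd : Odd (k - j) := by
    rw [Nat.even_iff] at hev hqe hpar
    rw [Nat.odd_iff]
    omega
  have hjk' : j < k := by
    rw [Nat.odd_iff] at hodd
    omega
  exact ⟨i, j, k, ⟨h, hi1, by omega, hpre, hdis, hj1, hjk', hkq, hj, hk, hjm, hkm, hpar, hodd⟩⟩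

end Pool.Agent.H20.ER2
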