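import Pool.Agent.H48.ER.Lib
import Pool.Agent.H72.ER.DEG

/-!
# Connectivity of prisms, four cycles in prisms, prisms and joins (helper20)
-/

set_option autoImplicit false

namespace Pool.Agent.H20.ER2

open Pool.Agent.H48.ER

variable {V : Type} {G : SimpleGraph V} {a b : Fin 3 → V} {n : Fin 3 → ℕ} {P : Fin 3 → Set V}

/-- from a vertex of a path one reaches an end, avoiding a clique -/
theorem path_reach {m : ℕ} {x y : V} {R X Z : Set V} (h : IP G m x y R)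
    (hcl : ∀ u ∈ X, ∀ v ∈ R, v ∉ Z → G.Adj u v → v ∈ X)
    (hZ : ∀ z ∈ Z, ∀ w ∈ Z, z ≠ w → G.Adj z w) {v : V} (hv : v ∈ R) (hvX : v ∈ X)
    (hvZ : v ∉ Z) : (x ∈ X ∧ x ∉ Z) ∨ (y ∈ X ∧ y ∉ Z) := by
  obtain ⟨g, g0, gn, gi, ga, hR⟩ := h
  have hmem : ∀ i, i ≤ m → g i ∈ R := fun i hi => by rw [hR]; exact ⟨i, hi, rfl⟩
  rw [hR] at hv
  obtain ⟨s, hs, rfl⟩ := hv
  by_cases hd : ∀ t, t ≤ s → g t ∉ Z
  · left
    have key : ∀ d, d ≤ s → g (s - d) ∈ X := by
      intro d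
      induction d with
      | zero => intro _; exact hvX
      | succ d ih =>
        intro hd'
        refine hcl _ (ih (by omega)) _ (hmem _ (by omega)) (hd _ (by omega)) ?_
        rw [ga _ _ (by omega) (by omega)]
        omega
    have h1 := key s le_rfl
    rw [Nat.sub_self, g0] at h1
    have h2 := hd 0 (Nat.zero_le _)
    rw [g0] at h2
    exact ⟨h1, h2⟩
  · right
    push Not at hd
    obtain ⟨t, ht, htZ⟩ := hd
    have hts : t ≠ s := fun e => hvZ (e ▸ htZ)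
    have hu : ∀ t', s ≤ t' → t' ≤ m → g t' ∉ Z := by
      intro t' h1 h2 h3
      have hne : g t ≠ g t' := fun e => by
        have := gi t t' (by omega) h2 e
        omega
      have := (ga t t' (by omega) h2).1 (hZ _ htZ _ h3 hne)
      have hst : s = t' := by omega
      exact hvZ (hst ▸ h3)
    have key : ∀ d, s + d ≤ m → g (s + d) ∈ X := by
      intro d
      induction d with
      | zero => intro _; exact hvX
      | succ d ih =>
        intro hd'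
        refine hcl _ (ih (by omega)) _ (hmem _ (by omega)) (hu _ (by omega) (by omega)) ?_
        rw [ga _ _ (by omega) (by omega)]
        omega
    have h1 := key (m - s) (by omega)
    have h2 := hu m hs le_rfl
    rw [Nat.add_sub_cancel' hs, gn] at h1
    rw [gn] at h2
    exact ⟨h1, h2⟩

/-- a path without vertices in `Z` -/
theorem path_all {m : ℕ} {x y : V} {R X : Set V} (h : IP G m x y R)
    (hcl : ∀ u ∈ X, ∀ v ∈ R, G.Adj u v → v ∈ X) {v : V} (hv : v ∈ R) (hvX : v ∈ X) : x ∈ X := by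
  obtain ⟨g, g0, gn, gi, ga, hR⟩ := h
  have hmem : ∀ i, i ≤ m → g i ∈ R := fun i hi => by rw [hR]; exact ⟨i, hi, rfl⟩
  rw [hR] at hv
  obtain ⟨s, hs, rfl⟩ := hv
  have key : ∀ d, d ≤ s → g (s - d) ∈ X := by
    intro d
    induction d with
    | zero => intro _; exact hvX
    | succ d ih =>
      intro hd'
      refine hcl _ (ih (by omega)) _ (hmem _ (by omega)) ?_
      rw [ga _ _ (by omega) (by omega)]
      omega
  have h1 := key s le_rfl
  rw [Nat.sub_self, g0] at h1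
  exact h1

/-- a prism is connected after the deletion of one vertex or of two adjacent vertices -/
theorem prism_conn (h : Prism G a b n P) (z w : V) (Z X : Set V) (hZ : Z ⊆ {z, w})
    (hZc : ∀ u ∈ Z, ∀ v ∈ Z, u ≠ v → G.Adj u v) (hX : X ⊆ ver P) (hXZ : ∀ u ∈ X, u ∉ Z)
    (hne : X.Nonempty) (hcl : ∀ u ∈ X, ∀ v ∈ ver P, v ∉ Z → G.Adj u v → v ∈ X) :
    ∀ v ∈ ver P, v ∉ Z → v ∈ X := by
  -- an intact rung
  obtain ⟨k, hk⟩ : ∃ k, ∀ v ∈ P k, v ∉ Z := by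
    by_contra hc
    push Not at hc
    obtain ⟨v0, h0, h0'⟩ := hc 0
    obtain ⟨v1, h1, h1'⟩ := hc 1
    obtain ⟨v2, h2, h2'⟩ := hc 2
    have n01 : v0 ≠ v1 := h.ne_of_mem (by decide) h0 h1
    have n02 : v0 ≠ v2 := h.ne_of_mem (by decide) h0 h2
    have n12 : v1 ≠ v2 := h.ne_of_mem (by decide) h1 h2
    rcases hZ h0' with e0 | e0 <;> rcases hZ h1' with e1 | e1 <;> rcases hZ h2' with e2 | e2 <;>
      first
        | exact n01 (e0.trans e1.symm)
        | exact n02 (e0.trans e2.symm)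
        | exact n12 (e1.trans e2.symm)
  have key : ∀ Y : Set V, Y ⊆ ver P → (∀ u ∈ Y, u ∉ Z) → Y.Nonempty →
      (∀ u ∈ Y, ∀ v ∈ ver P, v ∉ Z → G.Adj u v → v ∈ Y) → a k ∈ Y := by
    rintro Y hY hYZ ⟨v, hv⟩ hYc
    have down : ∀ v ∈ P k, v ∈ Y → a k ∈ Y := fun v hv hvY =>
      path_all (h.ip k) (fun u hu w hw ha => hYc u hu w (mem_ver hw) (hk w hw) ha) hv hvY
    obtain ⟨i, hi⟩ := hY hv
    by_cases hik : i = k
    · subst hik
      exact down v hi hv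
    · rcases path_reach (h.ip i) (fun u hu w hw hwZ ha => hYc u hu w (mem_ver hw) hwZ ha) hZc hi
        hv (hYZ v hv) with ⟨h1, _⟩ | ⟨h1, _⟩
      · exact hYc _ h1 _ (mem_ver (h.a_mem k)) (hk _ (h.a_mem k)) (h.a_adj hik)
      · exact down _ (h.b_mem k)
          (hYc _ h1 _ (mem_ver (h.b_mem k)) (hk _ (h.b_mem k)) (h.b_adj hik))
  intro v hv hvZ
  by_contra hvX
  have h1 := key X hX hXZ hne hcl
  have h2 := key {u | u ∈ ver P ∧ u ∉ Z ∧ u ∉ X} (fun u hu => hu.1) (fun u hu => hu.2.1)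
    ⟨v, hv, hvZ, hvX⟩ (by
      rintro u ⟨hu1, hu2, hu3⟩ t ht htZ ha
      refine ⟨ht, htZ, fun htX => hu3 ?_⟩
      exact hcl t htX u hu1 hu2 ha.symm)
  exact h2.2.2 h1

theorem prism_ab (h : Prism G a b n P) {i j : Fin 3} (ha : G.Adj (a i) (b j)) : i = j := by
  by_contra hij
  rcases (h.adj i j hij _ (h.a_mem i) _ (h.b_mem j)).1 ha with ⟨_, e⟩ | ⟨e, _⟩
  · exact h.a_ne_b j j e.symm
  · exact h.a_ne_b i i e

theorem prism_aa (h : Prism G a b n P) {i j : Fin 3} (ha : G.Adj (a i) (a j)) : i ≠ j := by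
  rintro rfl
  exact G.loopless.irrefl _ ha

theorem prism_a_inj (h : Prism G a b n P) {i j : Fin 3} (e : a i = a j) : i = j :=
  h.rung (h.a_mem i) (e ▸ h.a_mem j)

/-- no vertex of a four cycle is in the interior of a rung -/
theorem c4_int (h : Prism G a b n P) {u u' w w' : V} (hu : u ∈ ver P) (hu' : u' ∈ ver P)
    (hw : w ∈ ver P) (hw' : w' ∈ ver P) (huu : u ≠ u') (hww : w ≠ w') (h1 : G.Adj u w)
    (h2 : G.Adj u w') (h3 : G.Adj u' w) (h4 : G.Adj u' w') : ∃ i, u = a i ∨ u = b i := by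
  by_contra hc
  push Not at hc
  obtain ⟨i, hi⟩ := hu
  obtain ⟨j, hj⟩ := hw
  obtain ⟨j', hj'⟩ := hw'
  obtain ⟨l, hl⟩ := hu'
  have hji : j = i := by
    by_contra e
    rcases (h.adj i j (Ne.symm e) _ hi _ hj).1 h1 with ⟨e1, _⟩ | ⟨e1, _⟩
    · exact (hc i).1 e1
    · exact (hc i).2 e1
  have hji' : j' = i := by
    by_contra e
    rcases (h.adj i j' (Ne.symm e) _ hi _ hj').1 h2 with ⟨e1, _⟩ | ⟨e1, _⟩
    · exact (hc i).1 e1
    · exact (hc i).2 e1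
  subst hji
  subst hji'
  by_cases hl2 : l = j'
  · subst hl2
    obtain ⟨g, g0, gn, gi, ga, hR⟩ := h.ip l
    rw [hR] at hi hj hj' hl
    obtain ⟨s, hs, rfl⟩ := hi
    obtain ⟨s1, hs1, rfl⟩ := hj
    obtain ⟨s2, hs2, rfl⟩ := hj'
    obtain ⟨s', hs', rfl⟩ := hl
    rw [ga _ _ hs hs1] at h1
    rw [ga _ _ hs hs2] at h2
    rw [ga _ _ hs' hs1] at h3
    rw [ga _ _ hs' hs2] at h4
    have hne : s1 ≠ s2 := fun e => hww (by rw [e])
    exact huu (by rw [show s = s' by omega])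
  · rcases (h.adj l j' hl2 _ hl _ hj).1 h3 with ⟨e1, e2⟩ | ⟨e1, e2⟩ <;>
      rcases (h.adj l j' hl2 _ hl _ hj').1 h4 with ⟨e3, e4⟩ | ⟨e3, e4⟩
    · exact hww (e2.trans e4.symm)
    · exact h.a_ne_b l l (e1.symm.trans e3)
    · exact h.a_ne_b l l (e3.symm.trans e1)
    · exact hww (e2.trans e4.symm)

/-- four cycles in a prism, first corner `a i` -/
theorem c4_aux (h : Prism G a b n P) {i : Fin 3} {u' w w' : V} (hu' : u' ∈ ver P)
    (hw : w ∈ ver P) (hw' : w' ∈ ver P) (huu : a i ≠ u') (hww : w ≠ w') (h1 : G.Adj (a i) w)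
    (h2 : G.Adj (a i) w') (h3 : G.Adj u' w) (h4 : G.Adj u' w') :
    ∃ j, i ≠ j ∧ u' = b j ∧ ((w = a j ∧ w' = b i) ∨ (w = b i ∧ w' = a j)) := by
  have hui : a i ∈ ver P := mem_ver (h.a_mem i)
  obtain ⟨x, hx⟩ := c4_int h hu' hui hw hw' huu.symm hww h3 h4 h1 h2
  obtain ⟨y, hy⟩ := c4_int h hw hw' hui hu' hww huu h1.symm h3.symm h2.symm h4.symm
  obtain ⟨y', hy'⟩ := c4_int h hw' hw hui hu' hww.symm huu h2.symm h4.symm h1.symm h3.symm
  rcases hy with rfl | rfl <;> rcases hy' with rfl | rfl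
  · -- both `a`
    exfalso
    have n1 := prism_aa h h1
    have n2 := prism_aa h h2
    have n3 : y ≠ y' := fun e => hww (by rw [e])
    rcases hx with rfl | rfl
    · have n4 := prism_aa h h3
      have n5 := prism_aa h h4
      have n6 : i ≠ x := fun e => huu (by rw [e])
      have : ∀ i x y y' : Fin 3, i ≠ y → i ≠ y' → y ≠ y' → x ≠ y → x ≠ y' → i = x := by decide
      exact n6 (this i x y y' n1 n2 n3 n4 n5)
    · have e1 := prism_ab h h3.symm
      have e2 := prism_ab h h4.symm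
      exact n3 (e1.trans e2.symm)
  · have n1 := prism_aa h h1
    have e2 := prism_ab h h2
    subst e2
    rcases hx with rfl | rfl
    · exact absurd (by rw [prism_ab h h4]) huu
    · have e3 := prism_ab h h3.symm
      subst e3
      exact ⟨y, n1, rfl, Or.inl ⟨rfl, rfl⟩⟩
  · have n1 := prism_aa h h2
    have e2 := prism_ab h h1
    subst e2
    rcases hx with rfl | rfl
    · exact absurd (by rw [prism_ab h h3]) huu
    · have e3 := prism_ab h h4.symm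
      subst e3
      exact ⟨y', n1, rfl, Or.inr ⟨rfl, rfl⟩⟩
  · have e1 := prism_ab h h1
    have e2 := prism_ab h h2
    exact absurd (by rw [← e1, ← e2]) hww

/-- a vertex which is adjacent to exactly one of `u`, `u'` and only to `w'` of `w`, `w'` -/
theorem c4_third (h : Prism G a b n P) {i j : Fin 3} (hij : i ≠ j) {u u' w w' : V}
    (hu : u = a i) (hu' : u' = b j) (hw : (w = a j ∧ w' = b i) ∨ (w = b i ∧ w' = a j)) :
    ∃ t ∈ ver P, G.Adj t w' ∧ ¬ G.Adj t w ∧ t ≠ w ∧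
      ((G.Adj t u ∧ ¬ G.Adj t u') ∨ (G.Adj t u' ∧ ¬ G.Adj t u)) := by
  obtain ⟨k, hki, hkj⟩ : ∃ k, k ≠ i ∧ k ≠ j := by
    have : ∀ i j : Fin 3, ∃ k, k ≠ i ∧ k ≠ j := by decide
    exact this i j
  subst hu
  subst hu'
  rcases hw with ⟨rfl, rfl⟩ | ⟨rfl, rfl⟩
  · refine ⟨b k, mem_ver (h.b_mem k), h.b_adj hki, fun e => hkj (prism_ab h e.symm).symm,
      (h.a_ne_b j k).symm, Or.inr ⟨h.b_adj hkj, fun e => hki (prism_ab h e.symm).symm⟩⟩
  · refine ⟨a k, mem_ver (h.a_mem k), h.a_adj hkj, fun e => hki (prism_ab h e),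
      h.a_ne_b k i, Or.inl ⟨h.a_adj hki, fun e => hkj (prism_ab h e)⟩⟩

/-- four cycles in a prism -/
theorem prism_c4 (h : Prism G a b n P) {u u' w w' : V} (hu : u ∈ ver P) (hu' : u' ∈ ver P)
    (hw : w ∈ ver P) (hw' : w' ∈ ver P) (huu : u ≠ u') (hww : w ≠ w') (h1 : G.Adj u w)
    (h2 : G.Adj u w') (h3 : G.Adj u' w) (h4 : G.Adj u' w') :
    ∃ t ∈ ver P, G.Adj t w' ∧ ¬ G.Adj t w ∧ t ≠ w ∧
      ((G.Adj t u ∧ ¬ G.Adj t u') ∨ (G.Adj t u' ∧ ¬ G.Adj t u)) := by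
  obtain ⟨i, hi⟩ := c4_int h hu hu' hw hw' huu hww h1 h2 h3 h4
  rcases hi with rfl | rfl
  · obtain ⟨j, hij, e1, e2⟩ := c4_aux h hu' hw hw' huu hww h1 h2 h3 h4
    exact c4_third h hij rfl e1 e2
  · obtain ⟨j, hij, e1, e2⟩ := c4_aux h.flip hu' hw hw' huu hww h1 h2 h3 h4
    exact c4_third h.flip hij rfl e1 e2

/-- prisms and joins -/
theorem prism_join (h : Prism G a b n P) (X1 X2 Z N1 N2 : Set V)
    (hcov : ∀ v, v ∈ ver P ↔ v ∈ X1 ∨ v ∈ X2 ∨ v ∈ Z) (hd12 : ∀ v ∈ X1, v ∉ X2)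
    (hd1 : ∀ v ∈ X1, v ∉ Z) (hd2 : ∀ v ∈ X2, v ∉ Z) (hZ : Z.Subsingleton)
    (hE : ∀ u ∈ X1, ∀ v ∈ X2, G.Adj u v ↔ u ∈ N1 ∧ v ∈ N2)
    (hZN : ∀ z ∈ Z, ∀ u ∈ X1, u ∈ N1 → G.Adj z u) :
    X1 = ∅ ∨ X2 = ∅ ∨ (∃ m ∈ N1, X1 = {m}) ∨ (Z = ∅ ∧ ∃ m ∈ N2, X2 = {m}) := by
  by_contra hc
  push Not at hc
  obtain ⟨hX1, hX2, hc1, hc2⟩ := hc
  obtain ⟨x1, hx1⟩ := hX1
  obtain ⟨x2, hx2⟩ := hX2
  have m1 : ∀ v ∈ X1, v ∈ ver P := fun v hv => (hcov v).2 (Or.inl hv)
  have m2 : ∀ v ∈ X2, v ∈ ver P := fun v hv => (hcov v).2 (Or.inr (Or.inl hv))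
  have mZ : ∀ v ∈ Z, v ∈ ver P := fun v hv => (hcov v).2 (Or.inr (Or.inr hv))
  -- the set `Z` is contained in a singleton
  obtain ⟨z, hz⟩ : ∃ z, Z ⊆ {z} := by
    rcases hZ.eq_empty_or_singleton with e | ⟨z, e⟩
    · exact ⟨x1, by rw [e]; exact Set.empty_subset _⟩
    · exact ⟨z, by rw [e]⟩
  -- there is an edge between the two sides
  obtain ⟨u1, hu1, u2, hu2, hadj⟩ : ∃ u ∈ X1, ∃ v ∈ X2, G.Adj u v := by
    by_contra hno
    push Not at hno
    have := prism_conn h z z Z X1 (fun v hv => Or.inl (hz hv))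
      (fun u hu v hv huv => absurd (hZ hu hv) huv) (fun v hv => m1 v hv) hd1 ⟨x1, hx1⟩ (by
        intro u hu v hv hvZ ha
        rcases (hcov v).1 hv with h1 | h1 | h1
        · exact h1
        · exact absurd ha (hno u hu v h1)
        · exact absurd h1 hvZ) x2 (m2 x2 hx2) (hd2 x2 hx2)
    exact hd12 x2 this hx2
  obtain ⟨hu1N, hu2N⟩ := (hE u1 hu1 u2 hu2).1 hadj
  -- a second vertex in `X1 ∩ N1`
  obtain ⟨u1', hu1', hu1'N, hne1⟩ : ∃ v ∈ X1, v ∈ N1 ∧ v ≠ u1 := by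
    by_contra hno
    push Not at hno
    have hex : ∃ v ∈ X1, v ≠ u1 := by
      by_contra hno2
      push Not at hno2
      refine hc1 u1 hu1N ?_
      ext v
      exact ⟨fun hv => hno2 v hv, fun hv => by rw [Set.mem_singleton_iff.1 hv]; exact hu1⟩
    obtain ⟨x1', hx1', hx1n⟩ := hex
    have := prism_conn h z u1 (insert u1 Z) {v | v ∈ X1 ∧ v ≠ u1} (by
        intro v hv
        rcases hv with e | hv
        · exact Or.inr e
        · exact Or.inl (hz hv))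
      (by
        intro u hu v hv huv
        rcases hu with rfl | hu
        · rcases hv with rfl | hv
          · exact absurd rfl huv
          · exact (hZN v hv u hu1 hu1N).symm
        · rcases hv with rfl | hv
          · exact hZN u hu v hu1 hu1N
          · exact absurd (hZ hu hv) huv) (fun v hv => m1 v hv.1)
      (by
        rintro v ⟨hv1, hv2⟩ hv3
        rcases hv3 with e | hv3
        · exact hv2 e
        · exact hd1 v hv1 hv3) ⟨x1', hx1', hx1n⟩ (by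
        rintro u ⟨hu, hun⟩ v hv hvZ ha
        have hvu : v ≠ u1 := fun e => hvZ (Or.inl e)
        rcases (hcov v).1 hv with h1 | h1 | h1
        · exact ⟨h1, hvu⟩
        · exact absurd (hno u hu ((hE u hu v h1).1 ha).1) hun
        · exact absurd (Or.inr h1) hvZ) x2 (m2 x2 hx2) (by
        rintro (e | hv)
        · exact hd12 u1 hu1 (e ▸ hx2)
        · exact hd2 x2 hx2 hv)
    exact hd12 x2 this.1 hx2
  -- a second vertex on the other side
  obtain ⟨w, hwP, hwne, hw1, hwX1⟩ : ∃ w ∈ ver P, w ≠ u2 ∧ (∀ v ∈ X1, v ∈ N1 → G.Adj v w) ∧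
      ((w ∈ Z) ∨ (Z = ∅ ∧ w ∈ X2)) := by
    rcases hZ.eq_empty_or_singleton with e | ⟨z', e⟩
    · obtain ⟨u2', hu2', hu2'N, hne2⟩ : ∃ v ∈ X2, v ∈ N2 ∧ v ≠ u2 := by
        by_contra hno
        push Not at hno
        have hex : ∃ v ∈ X2, v ≠ u2 := by
          by_contra hno2
          push Not at hno2
          refine hc2 e u2 hu2N ?_
          ext v
          exact ⟨fun hv => hno2 v hv, fun hv => by rw [Set.mem_singleton_iff.1 hv]; exact hu2⟩
        obtain ⟨x2', hx2', hx2n⟩ := hex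
        have := prism_conn h u2 u2 {u2} {v | v ∈ X2 ∧ v ≠ u2} (fun v hv => Or.inl hv)
          (fun u hu v hv huv => absurd (hu.trans hv.symm) huv) (fun v hv => m2 v hv.1)
          (fun v hv hv2 => hv.2 hv2) ⟨x2', hx2', hx2n⟩ (by
            rintro u ⟨hu, hun⟩ v hv hvZ ha
            rcases (hcov v).1 hv with h1 | h1 | h1
            · exact absurd (hno u hu ((hE v h1 u hu).1 ha.symm).2) hun
            · exact ⟨h1, hvZ⟩
            · rw [e] at h1
              exact absurd h1 (Set.notMem_empty _)) x1 (m1 x1 hx1) (fun e2 => hd12 x1 hx1 (by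
              rw [Set.mem_singleton_iff.1 e2]
              exact hu2))
        exact hd12 x1 hx1 this.1
      exact ⟨u2', m2 _ hu2', hne2, fun v hv hvN => (hE v hv u2' hu2').2 ⟨hvN, hu2'N⟩,
        Or.inr ⟨e, hu2'⟩⟩
    · have hz' : z' ∈ Z := by rw [e]; rfl
      exact ⟨z', mZ z' hz', fun e2 => hd2 u2 hu2 (e2 ▸ hz'),
        fun v hv hvN => (hZN z' hz' v hv hvN).symm, Or.inl hz'⟩
  obtain ⟨t, htP, htw', htw, htne, ht⟩ := prism_c4 h (m1 u1 hu1) (m1 u1' hu1') hwP (m2 u2 hu2)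
    hne1.symm hwne (hw1 u1 hu1 hu1N) hadj (hw1 u1' hu1' hu1'N)
    ((hE u1' hu1' u2 hu2).2 ⟨hu1'N, hu2N⟩)
  rcases (hcov t).1 htP with h1 | h1 | h1
  · exact htw (hw1 t h1 ((hE t h1 u2 hu2).1 htw').1)
  · rcases ht with ⟨h2, h3⟩ | ⟨h2, h3⟩
    · exact h3 ((hE u1' hu1' t h1).2 ⟨hu1'N, ((hE u1 hu1 t h1).1 h2.symm).2⟩).symm
    · exact h3 ((hE u1 hu1 t h1).2 ⟨hu1N, ((hE u1' hu1' t h1).1 h2.symm).2⟩).symm
  · rcases hwX1 with h2 | ⟨h2, _⟩
    · exact htne (hZ h1 h2)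
    · rw [h2] at h1
      exact Set.notMem_empty _ h1

/-- every vertex of a prism has a neighbour in the prism -/
theorem prism_nbr (h : Prism G a b n P) {v : V} (hv : v ∈ ver P) : ∃ w ∈ ver P, G.Adj v w := by
  obtain ⟨i, hi⟩ := hv
  obtain ⟨g, g0, gn, gi, ga, hR⟩ := h.ip i
  have hpos := h.pos i
  have hmem : ∀ l, l ≤ n i → g l ∈ P i := fun l hl => by rw [hR]; exact ⟨l, hl, rfl⟩
  have hi' := hi
  rw [hR] at hi'
  obtain ⟨s, hs, rfl⟩ := hi'
  by_cases h0 : s = 0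
  · subst h0
    exact ⟨g 1, mem_ver (hmem 1 hpos), (ga 0 1 (Nat.zero_le _) hpos).2 (by omega)⟩
  · exact ⟨g (s - 1), mem_ver (hmem _ (by omega)), (ga s (s - 1) hs (by omega)).2 (by omega)⟩

end Pool.Agent.H20.ER2
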