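import Pool.Agent.H20.ER2.ASI

/-!
# MP_816b90_co: second leap case, first step (IB1).
-/

set_option autoImplicit false

namespace Pool.Agent.H20.ER2

open Pool.Agent.H48.ER Pool.Agent.H52.ER2 Pool.Agent.H66.ER2 Pool.Agent.H56.ER2

theorem pf_IB1 (hPPR : T_PPR) (hCNI : T_CNI) (hCNU : T_CNU) : T_IB1 := by
  intro V G v n z p q y x i j k hS hF h hyp
  have hq := h.q2
  have hi1 := h.i1
  have hip := h.ip
  have hj1 := h.j1
  have hjk := h.jk
  have hkq := h.kq
  have hn := hF.four
  by_contra hq2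
  have hz1 : z 1 ∈ Wz n z := ⟨1, by omega, by omega, rfl⟩
  have hya : ∀ a, 1 ≤ a → a ≤ i → (¬ G.Adj v (y a)) ∧ (G.Adj (z 1) (y a) ↔ a = 1) := by
    intro a h1 h2
    obtain ⟨e1, e2⟩ := hyp (y a) (Or.inl ⟨a, h1, h2, rfl⟩)
    refine ⟨fun h3 => h.dis a h2 1 (by omega) (e1.1 h3), ?_⟩
    rw [e2]
    exact ⟨fun e => h.py.inj _ _ (by omega) (by omega) e, fun e => by rw [e]⟩
  have hxb : ∀ b, 1 ≤ b → b ≤ j → (G.Adj v (x b) ↔ b = 1) ∧ ¬ G.Adj (z 1) (x b) := by
    intro b h1 h2
    obtain ⟨e1, e2⟩ := hyp (x b) (Or.inr ⟨b, h1, h2, rfl⟩)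
    refine ⟨?_, fun h3 => h.dis 1 (by omega) b (by omega) (e2.1 h3).symm⟩
    rw [e1]
    exact ⟨fun e => h.px.inj _ _ (by omega) (by omega) e, fun e => by rw [e]⟩
  have hv0 : G.Adj v (x 0) := h.ax.1
  have hv1 : G.Adj v (x 1) := (hxb 1 le_rfl hj1).1.2 rfl
  have h01 : G.Adj (x 0) (x 1) := by
    rw [h.px.adj _ _ (by omega) (by omega)]; omega
  have hxq : x q ∈ sB G v n z := by rw [h.xy]; exact h.b
  have key : ∀ (r : ℕ) (t : V) (R : Set V), IP G r (z 1) t R → 1 ≤ r →
      (∀ w ∈ R, w = z 1 ∨ (∃ a, 1 ≤ a ∧ a ≤ i ∧ y a = w) ∨ ∃ b, 2 ≤ b ∧ b ≤ j ∧ x b = w) →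
      (∀ w ∈ R, G.Adj (x 1) w ↔ w = t) → False := by
    intro r t R hR hr hmem h1t
    have hD1 : Cn G ({x q} : Set V) := hCNI V G 0 (x q) (x q) {x q} (IP.zero _)
    have hD2 : Cn G (seg z 2 (n - 1)) :=
      hCNI V G _ _ _ _ (seg_ip hS.so.pf (by omega) (by omega))
    have hD : Cn G ({x q} ∪ seg z 2 (n - 1)) :=
      hCNU V G _ _ hD1 hD2 ⟨x q, rfl, z (n - 1), ⟨n - 1, by omega, le_rfl, rfl⟩, Or.inr hxq.2.1⟩
    have hWs : ∀ k', 2 ≤ k' → k' ≤ n - 1 → z k' ∈ Wz n z := fun k' h1 h2 =>
      ⟨k', by omega, by omega, rfl⟩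
    have hX := hPPR V G v (x 0) (x 1) (z 1) t r R
      ({x q} ∪ seg z 2 (n - 1)) hS.cls.noh hR hr ?_ ?_ h01 ?_ h1t ?_ hv0 hv1 ?_ hD ?_ ?_ ?_ ?_ ?_ ?_
    · obtain ⟨a, b, m, P, hpr, ha0, _⟩ := hX
      exact (hS.nco a b m P hpr 0).1 ha0.symm
    · intro hm
      rcases hmem _ hm with e | ⟨a, h1, h2, e⟩ | ⟨b, h1, h2, e⟩
      · exact h.zx 0 (by omega) e
      · exact h.dis a h2 0 (by omega) e
      · have := h.px.inj _ _ (by omega) (by omega) e
        omega
    · intro hm
      rcases hmem _ hm with e | ⟨a, h1, h2, e⟩ | ⟨b, h1, h2, e⟩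
      · exact h.zx 1 (by omega) e
      · exact h.dis a h2 1 (by omega) e
      · have := h.px.inj _ _ (by omega) (by omega) e
        omega
    · intro w hm
      rcases hmem _ hm with rfl | ⟨a, h1, h2, rfl⟩ | ⟨b, h1, h2, rfl⟩
      · exact ⟨fun _ => rfl, fun _ => h.ax.2.1⟩
      · constructor
        · intro h3
          have := (h.nx a (by omega)).2.1 h3
          omega
        · intro h3
          exact absurd h3 (h.zy a (by omega))
      · constructor
        · intro h3
          rw [h.px.adj _ _ (by omega) (by omega)] at h3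
          omega
        · intro h3
          exact absurd h3 (h.zx b (by omega))
    · intro hm
      rcases hmem _ hm with e | ⟨a, h1, h2, e⟩ | ⟨b, h1, h2, e⟩
      · exact (hF.vw _ hz1).1 e.symm
      · exact h.vy a (by omega) e
      · exact h.vx b (by omega) e
    · intro w hm
      rcases hmem _ hm with rfl | ⟨a, h1, h2, rfl⟩ | ⟨b, h1, h2, rfl⟩
      · exact (hF.vw _ hz1).2
      · exact (hya a h1 h2).1
      · intro h3
        have := (hxb b (by omega) h2).1.1 h3
        omega
    · rintro (e | ⟨k', h1, h2, e⟩)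
      · exact h.vx q le_rfl e.symm
      · exact (hF.vw _ (hWs k' h1 h2)).1 e
    · rintro (e | ⟨k', h1, h2, e⟩)
      · have := h.px.inj _ _ (by omega) (by omega) e
        omega
      · exact (hF.vw _ (hWs k' h1 h2)).2 (by rw [e]; exact hv0)
    · rintro (e | ⟨k', h1, h2, e⟩)
      · have := h.px.inj _ _ (by omega) (by omega) e
        omega
      · exact (hF.vw _ (hWs k' h1 h2)).2 (by rw [e]; exact hv1)
    · rintro w (e | ⟨k', h1, h2, rfl⟩)
      · rw [Set.mem_singleton_iff.1 e, h.px.adj _ _ (by omega) (by omega),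
          h.px.adj _ _ (by omega) (by omega)]
        omega
      · exact ⟨fun h3 => h.ax.2.2 k' (by omega) (by omega) h3.symm,
          fun h3 => h.tx 1 le_rfl (by omega) hv1 _ (hWs k' h1 h2) h3.symm⟩
    · exact ⟨x q, Or.inl rfl, hxq.1⟩
    · refine ⟨z 2, Or.inr ⟨2, le_rfl, by omega, rfl⟩, Or.inr ⟨z 1, hR.left_mem, ?_⟩⟩
      rw [hS.so.pf.adj _ _ (by omega) (by omega)]
      omega
  have hA : IP G (i - 1 + 1) (z 1) (y i) (insert (z 1) (seg y 1 i)) := by
    refine (seg_ip h.py hi1 (by omega)).cons ?_ ?_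
    · rintro ⟨a, h1, h2, e⟩
      exact h.zy a (by omega) e
    · intro w hw
      exact (hyp w (Or.inl hw)).2
  rcases Nat.lt_or_ge 1 j with hj | hj
  · have hB : IP G (j - 2) (x j) (x 2) (seg x 2 j) := (seg_ip h.px hj (by omega)).rev
    refine key (i - 1 + 1 + (j - 2) + 1) (x 2) (insert (z 1) (seg y 1 i) ∪ seg x 2 j)
      (hA.append hB ?_ ?_) (by omega) ?_ ?_
    · rw [Set.disjoint_left]
      rintro w (rfl | ⟨a, h1, h2, rfl⟩) ⟨b, h3, h4, e⟩
      · exact h.zx b (by omega) e
      · exact h.dis a h2 b (by omega) e.symm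
    · rintro w (rfl | ⟨a, h1, h2, rfl⟩) u ⟨b, h3, h4, rfl⟩
      · constructor
        · intro h5
          exact absurd h5 (hxb b (by omega) h4).2
        · rintro ⟨h5, _⟩
          exact absurd h5.symm (h.zy i (by omega))
      · constructor
        · intro h5
          rcases Nat.lt_or_ge a i with h6 | h6
          · exact absurd h5 (h.pre a h1 h6 b (by omega))
          · have e0 : a = i := by omega
            subst e0
            rcases Nat.lt_or_ge b j with h7 | h7
            · exact absurd h5 (h.lo b h7)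
            · have e1 : b = j := by omega
              subst e1
              exact ⟨rfl, rfl⟩
        · rintro ⟨h5, h6⟩
          rw [h5, h6]
          exact h.cj
    · rintro w ((rfl | ⟨a, h1, h2, e⟩) | ⟨b, h3, h4, e⟩)
      · exact Or.inl rfl
      · exact Or.inr (Or.inl ⟨a, h1, h2, e⟩)
      · exact Or.inr (Or.inr ⟨b, h3, h4, e⟩)
    · rintro w ((rfl | ⟨a, h1, h2, rfl⟩) | ⟨b, h3, h4, rfl⟩)
      · constructor
        · intro h5
          exact absurd h5.symm (hxb 1 le_rfl hj1).2
        · intro h5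
          exact absurd h5.symm (h.zx 2 (by omega))
      · constructor
        · intro h5
          rcases Nat.lt_or_ge a i with h6 | h6
          · exact absurd h5.symm (h.pre a h1 h6 1 (by omega))
          · have e0 : a = i := by omega
            subst e0
            exact absurd h5.symm (h.lo 1 hj)
        · intro h5
          exact absurd h5 (h.dis a h2 2 (by omega))
      · rw [h.px.adj _ _ (by omega) (by omega)]
        constructor
        · intro h5
          have e0 : b = 2 := by omega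
          rw [e0]
        · intro h5
          have := h.px.inj _ _ (by omega) (by omega) h5
          omega
  · have e1 : j = 1 := by omega
    have hcj : G.Adj (y i) (x 1) := by
      have := h.cj
      rwa [e1] at this
    refine key (i - 1 + 1) (y i) _ hA (by omega) ?_ ?_
    · rintro w (rfl | ⟨a, h1, h2, e⟩)
      · exact Or.inl rfl
      · exact Or.inr (Or.inl ⟨a, h1, h2, e⟩)
    · rintro w (rfl | ⟨a, h1, h2, rfl⟩)
      · constructor
        · intro h5
          exact absurd h5.symm (hxb 1 le_rfl hj1).2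
        · intro h5
          exact absurd h5.symm (h.zy i (by omega))
      · constructor
        · intro h5
          rcases Nat.lt_or_ge a i with h6 | h6
          · exact absurd h5.symm (h.pre a h1 h6 1 (by omega))
          · have e0 : a = i := by omega
            rw [e0]
        · intro h5
          rw [h5]
          exact hcj.symm

end Pool.Agent.H20.ER2
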