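import Pool.Agent.H52.ER2.Base
import Pool.Agent.H20.ER2.Conn

/-!
# Lifting of good pairs through a 1-join (lemma of helper29; helper20)

The edges between the disjoint sets `V1`, `V2` are all edges between `N1 ⊆ V1` and `N2 ⊆ V2`. The
block of `n ∈ N2` is the induced subgraph on `V1 ∪ {n}`. A good pair of the block is a good pair of
the graph. Twins `u`, `v` are the case `V2 = {u, v}`.
-/

set_option autoImplicit false

namespace Pool.Agent.H20.ER2

open Pool.Agent.H48.ER Pool.Agent.H52.ER2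

variable {V : Type} {G : SimpleGraph V}

/-- a 1-join -/
structure Join1 (G : SimpleGraph V) (V1 V2 N1 N2 : Set V) : Prop where
  dis : ∀ v ∈ V1, v ∉ V2
  sup : Sup G (V1 ∪ V2)
  sub1 : N1 ⊆ V1
  sub2 : N2 ⊆ V2
  adj : ∀ u ∈ V1, ∀ v ∈ V2, G.Adj u v ↔ u ∈ N1 ∧ v ∈ N2

/-- a change of a property between two indices -/
theorem crossing (p : ℕ → Prop) (s : ℕ) : ∀ d, p s → ¬ p (s + d) → ∃ r, s ≤ r ∧ r < s + d ∧
    p r ∧ ¬ p (r + 1) := by
  intro d
  induction d with
  | zero => intro h1 h2; exact absurd h1 h2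
  | succ d ih =>
    intro h1 h2
    by_cases h3 : p (s + d)
    · exact ⟨s + d, by omega, by omega, h3, h2⟩
    · obtain ⟨r, hr1, hr2, hr3, hr4⟩ := ih h1 h3
      exact ⟨r, hr1, by omega, hr3, hr4⟩

/-- the vertices of a path with at least one edge are in the support -/
theorem path_sup {S : Set V} (hS : Sup G S) {m : ℕ} {x y : V} {R : Set V} (h : IP G m x y R)
    (hx : x ∈ S) : R ⊆ S := by
  obtain ⟨g, g0, gn, gi, ga, hR⟩ := h
  intro v hv
  rw [hR] at hv
  obtain ⟨s, hs, rfl⟩ := hv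
  by_cases h0 : s = 0
  · subst h0
    rw [g0]
    exact hx
  · exact (hS _ _ ((ga (s - 1) s (by omega) hs).2 (by omega))).2

/-- a path with both ends in `V1` has at most one vertex in `V2` -/
theorem join_path {V1 V2 N1 N2 : Set V} (hJ : Join1 G V1 V2 N1 N2) {m : ℕ} {x y : V} {R : Set V}
    (h : IP G m x y R) (hx : x ∈ V1) (hy : y ∈ V1) :
    R ⊆ V1 ∨ ∃ w ∈ N2, w ∈ R ∧ ∀ v ∈ R, v = w ∨ v ∈ V1 := by
  have hRS := path_sup hJ.sup h (Or.inl hx)
  obtain ⟨g, g0, gn, gi, ga, hR⟩ := h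
  have hmem : ∀ i, i ≤ m → g i ∈ R := fun i hi => by rw [hR]; exact ⟨i, hi, rfl⟩
  have h12 : ∀ i, i ≤ m → (¬ g i ∈ V1 ↔ g i ∈ V2) := by
    intro i hi
    constructor
    · intro h1
      exact (hRS (hmem i hi)).resolve_left h1
    · intro h2 h1
      exact hJ.dis _ h1 h2
  by_cases hall : ∀ i, i ≤ m → g i ∈ V1
  · left
    intro v hv
    rw [hR] at hv
    obtain ⟨i, hi, rfl⟩ := hv
    exact hall i hi
  · right
    push Not at hall
    obtain ⟨s, hs, hsV⟩ := hall
    -- two indices with vertices in `V2` are equal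
    have key : ∀ s s', s < s' → s' ≤ m → ¬ g s ∈ V1 → ¬ g s' ∈ V1 → False := by
      intro s s' hss hs' h1 h2
      obtain ⟨r, _, hr2, hr3, hr4⟩ := crossing (fun i => g i ∈ V1) 0 s (by
        show g 0 ∈ V1
        rw [g0]; exact hx) (by
        show ¬ g (0 + s) ∈ V1
        rw [Nat.zero_add]; exact h1)
      obtain ⟨r', hr1', hr2', hr3', hr4'⟩ := crossing (fun i => g i ∈ V2) s' (m - s')
        ((h12 s' hs').1 h2) (by
        show ¬ g (s' + (m - s')) ∈ V2
        rw [Nat.add_sub_cancel' hs', gn]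
        exact hJ.dis _ hy)
      have b1 : g (r + 1) ∈ V2 := (h12 _ (by omega)).1 hr4
      have b2 : g (r' + 1) ∈ V1 := by
        by_contra hc
        exact hr4' ((h12 _ (by omega)).1 hc)
      have a1 : G.Adj (g r) (g (r + 1)) := (ga _ _ (by omega) (by omega)).2 (by omega)
      have a2 : G.Adj (g (r' + 1)) (g r') := (ga _ _ (by omega) (by omega)).2 (by omega)
      obtain ⟨c1, _⟩ := (hJ.adj _ hr3 _ b1).1 a1
      obtain ⟨_, c4⟩ := (hJ.adj _ b2 _ hr3').1 a2
      have a3 : G.Adj (g r) (g r') := (hJ.adj _ hr3 _ hr3').2 ⟨c1, c4⟩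
      have := (ga _ _ (by omega) (by omega)).1 a3
      omega
    have hsV2 : g s ∈ V2 := (h12 s hs).1 hsV
    have hs0 : s ≠ 0 := by
      rintro rfl
      rw [g0] at hsV
      exact hsV hx
    have hprev : g (s - 1) ∈ V1 := by
      by_contra hc
      exact key (s - 1) s (by omega) hs hc hsV
    have hadj : G.Adj (g (s - 1)) (g s) := (ga _ _ (by omega) hs).2 (by omega)
    refine ⟨g s, ((hJ.adj _ hprev _ hsV2).1 hadj).2, hmem s hs, ?_⟩
    intro v hv
    rw [hR] at hv
    obtain ⟨i, hi, rfl⟩ := hv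
    by_cases his : i = s
    · left
      rw [his]
    · right
      by_contra hc
      rcases Nat.lt_or_ge i s with h1 | h1
      · exact key i s h1 hs hc hsV
      · exact key s i (by omega) hi hsV hc

/-- a path from `x ∈ N2` to `y ∈ V1` leaves `V2` in the first step -/
theorem join_path' {V1 V2 N1 N2 : Set V} (hJ : Join1 G V1 V2 N1 N2) {m : ℕ} {x y : V} {R : Set V}
    (h : IP G m x y R) (hx : x ∈ N2) (hy : y ∈ V1) : ∀ v ∈ R, v = x ∨ v ∈ V1 := by
  have hRS := path_sup hJ.sup h (Or.inr (hJ.sub2 hx))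
  obtain ⟨g, g0, gn, gi, ga, hR⟩ := h
  have hmem : ∀ i, i ≤ m → g i ∈ R := fun i hi => by rw [hR]; exact ⟨i, hi, rfl⟩
  have h12 : ∀ i, i ≤ m → (¬ g i ∈ V1 ↔ g i ∈ V2) := by
    intro i hi
    constructor
    · intro h1
      exact (hRS (hmem i hi)).resolve_left h1
    · intro h2 h1
      exact hJ.dis _ h1 h2
  intro v hv
  rw [hR] at hv
  obtain ⟨s, hs, rfl⟩ := hv
  by_cases h0 : s = 0
  · left
    rw [h0, g0]
  · right
    by_contra hc
    obtain ⟨r', hr1', hr2', hr3', hr4'⟩ := crossing (fun i => g i ∈ V2) s (m - s)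
      ((h12 s hs).1 hc) (by
      show ¬ g (s + (m - s)) ∈ V2
      rw [Nat.add_sub_cancel' hs, gn]
      exact hJ.dis _ hy)
    have b2 : g (r' + 1) ∈ V1 := by
      by_contra hc
      exact hr4' ((h12 _ (by omega)).1 hc)
    have a2 : G.Adj (g (r' + 1)) (g r') := (ga _ _ (by omega) (by omega)).2 (by omega)
    obtain ⟨c3, _⟩ := (hJ.adj _ b2 _ hr3').1 a2
    have a3 : G.Adj (g (r' + 1)) x := (hJ.adj _ b2 _ (hJ.sub2 hx)).2 ⟨c3, hx⟩
    rw [← g0] at a3
    have := (ga _ _ (by omega) (by omega)).1 a3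
    omega

theorem res_adj {C : Set V} {u v : V} (hu : u ∈ C) (hv : v ∈ C) :
    (res G C).Adj u v ↔ G.Adj u v := ⟨fun h => h.2.2, fun h => ⟨hu, hv, h⟩⟩

theorem mi (n : V) (S : Set V) : n ∈ insert n S := Set.mem_insert _ _

theorem mr {n v : V} {S : Set V} (h : v ∈ S) : v ∈ insert n S := Set.mem_insert_of_mem _ h

theorem EvP.symm' {p q : V} (h : EvP G p q) : EvP G q p :=
  ⟨h.1.symm, fun e => h.2.1 e.symm, fun n R hR => h.2.2 n R hR.rev⟩

/-- even pairs of the block are even pairs -/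
theorem join_evp {V1 V2 N1 N2 : Set V} (hJ : Join1 G V1 V2 N1 N2) {n x y : V} (hn : n ∈ N2)
    (hx : x ∈ insert n V1) (hy : y ∈ insert n V1) (h : EvP (res G (insert n V1)) x y) :
    EvP G x y := by
  classical
  have hna : ¬ G.Adj x y := fun e => h.2.1 ⟨hx, hy, e⟩
  have hnV1 : n ∉ V1 := fun e => hJ.dis n e (hJ.sub2 hn)
  -- one end is `n`
  have main : ∀ x y, x = n → y ∈ V1 → EvP (res G (insert n V1)) x y → ∀ (m : ℕ) (R : Set V),
      IP G m x y R → Even m := by
    rintro x y rfl hy h m R hR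
    have h1 := join_path' hJ hR hn hy
    refine h.2.2 m R (hR.congr fun u hu v hv => ?_)
    exact res_adj (h1 u hu) (h1 v hv)
  refine ⟨h.1, hna, ?_⟩
  rcases hx with rfl | hx
  · rcases hy with rfl | hy
    · exact absurd rfl h.1
    · exact main x y rfl hy h
  · rcases hy with rfl | hy
    · intro m R hR
      exact main y x rfl hx (EvP.symm' h) m R hR.rev
    · intro m R hR
      rcases join_path hJ hR hx hy with h1 | ⟨w, hw, hwR, h1⟩
      · refine h.2.2 m R (hR.congr fun u hu v hv => ?_)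
        exact res_adj (mr (h1 hu)) (mr (h1 hv))
      · have hwV1 : w ∉ V1 := fun e => hJ.dis w e (hJ.sub2 hw)
        obtain ⟨f, hf⟩ : ∃ f : V → V, f = fun v => if v = w then n else v := ⟨_, rfl⟩
        have fw : f w = n := by rw [hf]; exact if_pos rfl
        have fo : ∀ v, v ∈ V1 → f v = v := by
          intro v hv
          rw [hf]
          exact if_neg fun (e : v = w) => hwV1 (e ▸ hv)
        have h2 := hR.map (G' := res G (insert n V1)) f (by
          intro u hu v hv e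
          rcases h1 u hu with rfl | hu1 <;> rcases h1 v hv with hvw | hv1
          · exact hvw.symm
          · rw [fw, fo v hv1] at e
            exact absurd (e ▸ hv1) hnV1
          · rw [hvw, fw, fo u hu1] at e
            exact absurd (e ▸ hu1) hnV1
          · rw [fo u hu1, fo v hv1] at e
            exact e) (by
          intro u hu v hv
          rcases h1 u hu with rfl | hu1 <;> rcases h1 v hv with rfl | hv1
          · rw [fw]
            exact ⟨fun e => absurd e ((res G (insert n V1)).loopless.irrefl _),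
              fun e => absurd e (G.loopless.irrefl _)⟩
          · rw [fw, fo v hv1, res_adj (mi n V1) (mr hv1), G.adj_comm,
              hJ.adj v hv1 n (hJ.sub2 hn), G.adj_comm, hJ.adj v hv1 u (hJ.sub2 hw)]
            exact ⟨fun e => ⟨e.1, hw⟩, fun e => ⟨e.1, hn⟩⟩
          · rw [fw, fo u hu1, res_adj (mr hu1) (mi n V1), hJ.adj u hu1 n (hJ.sub2 hn),
              hJ.adj u hu1 v (hJ.sub2 hw)]
            exact ⟨fun e => ⟨e.1, hw⟩, fun e => ⟨e.1, hn⟩⟩
          · rw [fo u hu1, fo v hv1, res_adj (mr hu1) (mr hv1)])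
        rw [fo x hx, fo y hy] at h2
        exact h.2.2 m _ h2

/-- the contraction of `p`, `q` does not depend on the order -/
theorem nop_swap {p q : V} (hpq : p ≠ q) (h : NOP (ctr G p q)) : NOP (ctr G q p) := by
  classical
  intro a b k P hP hodd
  have hp : p ∉ ver P := by
    intro hp
    obtain ⟨w, _, hw⟩ := prism_nbr hP hp
    exact hw.2.1 rfl
  obtain ⟨f, hf⟩ : ∃ f : V → V, f = fun v => if v = q then p else v := ⟨_, rfl⟩
  have fq : f q = p := by rw [hf]; exact if_pos rfl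
  have fo : ∀ v, v ≠ q → f v = v := by
    intro v hv
    rw [hf]
    exact if_neg hv
  have hinj : Set.InjOn f (ver P) := by
    intro u hu v hv e
    by_cases h1 : u = q <;> by_cases h2 : v = q
    · rw [h1, h2]
    · rw [h1, fq, fo v h2] at e
      exact absurd (e ▸ hv) hp
    · rw [h2, fq, fo u h1] at e
      exact absurd (e ▸ hu) hp
    · rw [fo u h1, fo v h2] at e
      exact e
  refine h _ _ _ _ (hP.map f hinj ?_) hodd
  intro u hu v hv
  have hup : u ≠ p := fun e => hp (e ▸ hu)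
  have hvp : v ≠ p := fun e => hp (e ▸ hv)
  by_cases h1 : u = q <;> by_cases h2 : v = q
  · rw [h1, h2]
    exact ⟨fun e => absurd e ((ctr G p q).loopless.irrefl _),
      fun e => absurd e ((ctr G q p).loopless.irrefl _)⟩
  · rw [h1, fq, fo v h2, ctr_adj_left hvp h2 hpq, ctr_adj_left h2 hvp hpq.symm]
    exact Or.comm
  · rw [h2, fq, fo u h1, SimpleGraph.adj_comm (ctr G p q), SimpleGraph.adj_comm (ctr G q p),
      ctr_adj_left hup h1 hpq, ctr_adj_left h1 hup hpq.symm]
    exact Or.comm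
  · rw [fo u h1, fo v h2, ctr_adj_of_ne hup h1 hvp h2, ctr_adj_of_ne h1 hup h2 hvp]

/-- contraction inside of a set of vertices -/
theorem ctr_res {C : Set V} {x y : V} (hx : x ∈ C) (hy : y ∈ C) {u v : V} (hu : u ∈ C)
    (hv : v ∈ C) : (ctr (res G C) x y).Adj u v ↔ (ctr G x y).Adj u v := by
  rw [ctr_adj, ctr_adj, res_adj hu hv, res_adj hy hv, res_adj hu hy]

/-- both vertices in `V1` -/
theorem join_nop1 {V1 V2 N1 N2 : Set V} (hJ : Join1 G V1 V2 N1 N2) {n x y : V} (hn : n ∈ N2)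
    (hG : NOP G) (hx : x ∈ V1) (hy : y ∈ V1)
    (h : NOP (ctr (res G (insert n V1)) x y)) : NOP (ctr G x y) := by
  classical
  intro a b k P hP hodd
  have hyP : y ∉ ver P := by
    intro hp
    obtain ⟨w, _, hw⟩ := prism_nbr hP hp
    exact hw.2.1 rfl
  have hcovP : ∀ v ∈ ver P, v ∈ V1 ∨ v ∈ V2 := by
    intro v hv
    obtain ⟨w, _, hw⟩ := prism_nbr hP hv
    rcases hw.2.2.2 with h1 | ⟨rfl, h1⟩ | ⟨rfl, h1⟩
    · exact (hJ.sup _ _ h1).1
    · exact Or.inl hx
    · exact (hJ.sup _ _ h1).1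
  have ne2 : ∀ v ∈ V2, v ≠ x ∧ v ≠ y := fun v hv =>
    ⟨fun e => hJ.dis x hx (e ▸ hv), fun e => hJ.dis y hy (e ▸ hv)⟩
  have hnV1 : n ∉ V1 := fun e => hJ.dis n e (hJ.sub2 hn)
  -- adjacency between the sides
  have hE : ∀ u ∈ V1, u ≠ y → ∀ v ∈ V2, (ctr G x y).Adj u v ↔
      (u ∈ N1 ∨ (u = x ∧ y ∈ N1)) ∧ v ∈ N2 := by
    intro u hu huy v hv
    rw [ctr_adj, hJ.adj u hu v hv, hJ.adj y hy v hv]
    constructor
    · rintro ⟨_, _, _, h1 | ⟨h1, h2⟩ | ⟨h1, _⟩⟩
      · exact ⟨Or.inl h1.1, h1.2⟩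
      · exact ⟨Or.inr ⟨h1, h2.1⟩, h2.2⟩
      · exact absurd h1 (ne2 v hv).1
    · rintro ⟨h1 | ⟨h1, h2⟩, h3⟩
      · exact ⟨fun e => hJ.dis u hu (e ▸ hv), huy, (ne2 v hv).2, Or.inl ⟨h1, h3⟩⟩
      · exact ⟨fun e => hJ.dis u hu (e ▸ hv), huy, (ne2 v hv).2, Or.inr (Or.inl ⟨h1, h2, h3⟩)⟩
  have hE2 : ∀ u ∈ V2, ∀ v ∈ V2, (ctr G x y).Adj u v ↔ G.Adj u v := fun u hu v hv =>
    ctr_adj_of_ne (ne2 u hu).1 (ne2 u hu).2 (ne2 v hv).1 (ne2 v hv).2
  have hj := prism_join hP {v | v ∈ ver P ∧ v ∈ V1} {v | v ∈ ver P ∧ v ∈ V2} ∅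
    {u | u ∈ N1 ∨ (u = x ∧ y ∈ N1)} N2 (by
      intro v
      constructor
      · intro hv
        rcases hcovP v hv with h1 | h1
        · exact Or.inl ⟨hv, h1⟩
        · exact Or.inr (Or.inl ⟨hv, h1⟩)
      · rintro (h1 | h1 | h1)
        · exact h1.1
        · exact h1.1
        · exact absurd h1 (Set.notMem_empty _))
    (fun v hv hv2 => hJ.dis v hv.2 hv2.2) (fun v _ => Set.notMem_empty _)
    (fun v _ => Set.notMem_empty _) Set.subsingleton_empty
    (fun u hu v hv => hE u hu.2 (fun e => hyP (e ▸ hu.1)) v hv.2)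
    (fun z hz => absurd hz (Set.notMem_empty _))
  rcases hj with h1 | h1 | ⟨m, hm, h1⟩ | ⟨_, m, hm, h1⟩
  · -- everything is in `V2`
    have hall : ∀ v ∈ ver P, v ∈ V2 := by
      intro v hv
      rcases hcovP v hv with h2 | h2
      · exact absurd (show v ∈ {v | v ∈ ver P ∧ v ∈ V1} from ⟨hv, h2⟩)
          (by rw [h1]; exact Set.notMem_empty _)
      · exact h2
    exact hG _ _ _ _ (hP.congr fun u hu v hv => (hE2 u (hall u hu) v (hall v hv)).symm) hodd
  · -- everything is in `V1`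
    have hall : ∀ v ∈ ver P, v ∈ V1 := by
      intro v hv
      rcases hcovP v hv with h2 | h2
      · exact h2
      · exact absurd (show v ∈ {v | v ∈ ver P ∧ v ∈ V2} from ⟨hv, h2⟩)
          (by rw [h1]; exact Set.notMem_empty _)
    exact h _ _ _ _ (hP.congr fun u hu v hv =>
      ctr_res (mr hx) (mr hy) (mr (hall u hu)) (mr (hall v hv))) hodd
  · -- one vertex `m` in `V1`
    have hmP : m ∈ ver P ∧ m ∈ V1 := by
      have : m ∈ {v | v ∈ ver P ∧ v ∈ V1} := by rw [h1]; rfl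
      exact this
    have hall : ∀ v ∈ ver P, v = m ∨ v ∈ V2 := by
      intro v hv
      rcases hcovP v hv with h2 | h2
      · left
        have : v ∈ {v | v ∈ ver P ∧ v ∈ V1} := ⟨hv, h2⟩
        rw [h1] at this
        exact this
      · exact Or.inr h2
    obtain ⟨u0, hu0⟩ : ∃ u0, u0 ∈ N1 := by
      rcases hm with h2 | h2
      · exact ⟨m, h2⟩
      · exact ⟨y, h2.2⟩
    have hu0V : u0 ∉ V2 := hJ.dis u0 (hJ.sub1 hu0)
    have hmV : m ∉ V2 := hJ.dis m hmP.2
    obtain ⟨f, hf⟩ : ∃ f : V → V, f = fun v => if v = m then u0 else v := ⟨_, rfl⟩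
    have fm : f m = u0 := by rw [hf]; exact if_pos rfl
    have fo : ∀ v, v ∈ V2 → f v = v := by
      intro v hv
      rw [hf]
      exact if_neg fun (e : v = m) => hmV (e ▸ hv)
    refine hG _ _ _ _ (hP.map f ?_ ?_) hodd
    · intro u hu v hv e
      rcases hall u hu with rfl | hu1 <;> rcases hall v hv with rfl | hv1
      · rfl
      · rw [fm, fo v hv1] at e
        exact absurd (e ▸ hv1) hu0V
      · rw [fm, fo u hu1] at e
        exact absurd (e ▸ hu1) hu0V
      · rw [fo u hu1, fo v hv1] at e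
        exact e
    · intro u hu v hv
      rcases hall u hu with rfl | hu1 <;> rcases hall v hv with rfl | hv1
      · rw [fm]
        exact ⟨fun e => absurd e (G.loopless.irrefl _),
          fun e => absurd e ((ctr G x y).loopless.irrefl _)⟩
      · rw [fm, fo v hv1, hJ.adj u0 (hJ.sub1 hu0) v hv1,
          hE u hmP.2 (fun e => hyP (e ▸ hu)) v hv1]
        exact ⟨fun e => ⟨hm, e.2⟩, fun e => ⟨hu0, e.2⟩⟩
      · rw [fm, fo u hu1, G.adj_comm, hJ.adj u0 (hJ.sub1 hu0) u hu1, SimpleGraph.adj_comm,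
          hE v hmP.2 (fun e => hyP (e ▸ hv)) u hu1]
        exact ⟨fun e => ⟨hm, e.2⟩, fun e => ⟨hu0, e.2⟩⟩
      · rw [fo u hu1, fo v hv1, hE2 u hu1 v hv1]
  · -- one vertex `m` in `V2`
    have hmP : m ∈ ver P ∧ m ∈ V2 := by
      have : m ∈ {v | v ∈ ver P ∧ v ∈ V2} := by rw [h1]; rfl
      exact this
    have hall : ∀ v ∈ ver P, v = m ∨ v ∈ V1 := by
      intro v hv
      rcases hcovP v hv with h2 | h2
      · exact Or.inr h2
      · left
        have : v ∈ {v | v ∈ ver P ∧ v ∈ V2} := ⟨hv, h2⟩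
        rw [h1] at this
        exact this
    have hmV : m ∉ V1 := fun e => hJ.dis m e hmP.2
    obtain ⟨f, hf⟩ : ∃ f : V → V, f = fun v => if v = m then n else v := ⟨_, rfl⟩
    have fm : f m = n := by rw [hf]; exact if_pos rfl
    have fo : ∀ v, v ∈ V1 → f v = v := by
      intro v hv
      rw [hf]
      exact if_neg fun (e : v = m) => hmV (e ▸ hv)
    have hEn : ∀ u ∈ V1, u ≠ y → ((ctr (res G (insert n V1)) x y).Adj u n ↔
        (ctr G x y).Adj u m) := by
      intro u hu huy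
      rw [ctr_res (mr hx) (mr hy) (mr hu) (mi n V1),
        hE u hu huy n (hJ.sub2 hn), hE u hu huy m hmP.2]
      exact ⟨fun e => ⟨e.1, hm⟩, fun e => ⟨e.1, hn⟩⟩
    refine h _ _ _ _ (hP.map f ?_ ?_) hodd
    · intro u hu v hv e
      rcases hall u hu with rfl | hu1 <;> rcases hall v hv with rfl | hv1
      · rfl
      · rw [fm, fo v hv1] at e
        exact absurd (e ▸ hv1) hnV1
      · rw [fm, fo u hu1] at e
        exact absurd (e ▸ hu1) hnV1
      · rw [fo u hu1, fo v hv1] at e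
        exact e
    · intro u hu v hv
      rcases hall u hu with rfl | hu1 <;> rcases hall v hv with rfl | hv1
      · exact ⟨fun e => absurd e ((ctr (res G (insert n V1)) x y).loopless.irrefl _),
          fun e => absurd e ((ctr G x y).loopless.irrefl _)⟩
      · rw [fm, fo v hv1, SimpleGraph.adj_comm, hEn v hv1 (fun e => hyP (e ▸ hv)),
          SimpleGraph.adj_comm]
      · rw [fm, fo u hu1, hEn u hu1 (fun e => hyP (e ▸ hu))]
      · rw [fo u hu1, fo v hv1, ctr_res (mr hx) (mr hy) (mr hu1) (mr hv1)]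

/-- one vertex is `n` -/
theorem join_nop2 {V1 V2 N1 N2 : Set V} (hJ : Join1 G V1 V2 N1 N2) {n y : V} (hn : n ∈ N2)
    (hG : NOP G) (hy : y ∈ V1) (hna : ¬ G.Adj n y)
    (h : NOP (ctr (res G (insert n V1)) n y)) : NOP (ctr G n y) := by
  intro a b k P hP hodd
  have hnV2 : n ∈ V2 := hJ.sub2 hn
  have hny : n ≠ y := fun e => hJ.dis y hy (e ▸ hnV2)
  have hyN : y ∉ N1 := fun e => hna ((hJ.adj y hy n hnV2).2 ⟨e, hn⟩).symm
  have hyP : y ∉ ver P := by
    intro hp
    obtain ⟨w, _, hw⟩ := prism_nbr hP hp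
    exact hw.2.1 rfl
  have hcovP : ∀ v ∈ ver P, v ∈ V1 ∨ v ∈ V2 := by
    intro v hv
    obtain ⟨w, _, hw⟩ := prism_nbr hP hv
    rcases hw.2.2.2 with h1 | ⟨rfl, h1⟩ | ⟨rfl, h1⟩
    · exact (hJ.sup _ _ h1).1
    · exact Or.inr hnV2
    · exact (hJ.sup _ _ h1).1
  have hneP : ∀ v ∈ ver P, v ≠ y := fun v hv e => hyP (e ▸ hv)
  by_cases hnP : n ∈ ver P
  · have hEn : ∀ v ∈ V2, v ≠ n → ((ctr G n y).Adj n v ↔ G.Adj n v) := by
      intro v hv hvn
      rw [ctr_adj_left hvn (fun (e : v = y) => hJ.dis y hy (e ▸ hv)) hny]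
      refine or_iff_left fun e => hyN ((hJ.adj y hy v hv).1 e).1
    have hj := prism_join hP {v | v ∈ ver P ∧ v ∈ V1} {v | v ∈ ver P ∧ v ∈ V2 ∧ v ≠ n} {n}
      N1 N2 (by
        intro v
        constructor
        · intro hv
          by_cases hvn : v = n
          · exact Or.inr (Or.inr hvn)
          · rcases hcovP v hv with h1 | h1
            · exact Or.inl ⟨hv, h1⟩
            · exact Or.inr (Or.inl ⟨hv, h1, hvn⟩)
        · rintro (h1 | h1 | h1)
          · exact h1.1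
          · exact h1.1
          · rw [Set.mem_singleton_iff.1 h1]
            exact hnP)
      (fun v hv hv2 => hJ.dis v hv.2 hv2.2.1)
      (fun v hv hv2 => hJ.dis v hv.2 (by rw [Set.mem_singleton_iff.1 hv2]; exact hnV2))
      (fun v hv hv2 => hv.2.2 hv2) Set.subsingleton_singleton
      (by
        intro u hu v hv
        rw [ctr_adj_of_ne (fun (e : u = n) => hJ.dis u hu.2 (e ▸ hnV2)) (hneP u hu.1) hv.2.2
          (hneP v hv.1)]
        exact hJ.adj u hu.2 v hv.2.1)
      (by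
        intro z hz u hu huN
        rw [Set.mem_singleton_iff.1 hz,
          ctr_adj_left (fun (e : u = n) => hJ.dis u hu.2 (e ▸ hnV2)) (hneP u hu.1) hny]
        exact Or.inl ((hJ.adj u hu.2 n hnV2).2 ⟨huN, hn⟩).symm)
    -- reduction to a prism in `G`
    have toG : (∀ u ∈ ver P, u ∈ V1 → u ∈ N1) → False := by
      intro hN
      have hadj : ∀ v ∈ ver P, v ≠ n → (G.Adj n v ↔ (ctr G n y).Adj n v) := by
        intro v hv hvn
        rcases hcovP v hv with h1 | h1
        · rw [ctr_adj_left hvn (hneP v hv) hny]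
          have : G.Adj n v := ((hJ.adj v h1 n hnV2).2 ⟨hN v hv h1, hn⟩).symm
          exact ⟨fun _ => Or.inl this, fun _ => this⟩
        · exact (hEn v h1 hvn).symm
      refine hG _ _ _ _ (hP.congr fun u hu v hv => ?_) hodd
      by_cases h1 : u = n <;> by_cases h2 : v = n
      · rw [h1, h2]
        exact ⟨fun e => absurd e (G.loopless.irrefl _),
          fun e => absurd e ((ctr G n y).loopless.irrefl _)⟩
      · rw [h1]
        exact hadj v hv h2
      · rw [h2, G.adj_comm, SimpleGraph.adj_comm (ctr G n y)]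
        exact hadj u hu h1
      · exact (ctr_adj_of_ne h1 (hneP u hu) h2 (hneP v hv)).symm
    rcases hj with h1 | h1 | ⟨m, hm, h1⟩ | ⟨h1, _⟩
    · refine toG fun u hu hu1 => ?_
      exact absurd (show u ∈ {v | v ∈ ver P ∧ v ∈ V1} from ⟨hu, hu1⟩)
        (by rw [h1]; exact Set.notMem_empty _)
    · have hall : ∀ v ∈ ver P, v ∈ insert n V1 := by
        intro v hv
        by_cases hvn : v = n
        · exact Or.inl hvn
        · rcases hcovP v hv with h2 | h2
          · exact Or.inr h2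
          · exact absurd (show v ∈ {v | v ∈ ver P ∧ v ∈ V2 ∧ v ≠ n} from ⟨hv, h2, hvn⟩)
              (by rw [h1]; exact Set.notMem_empty _)
      exact h _ _ _ _ (hP.congr fun u hu v hv =>
        ctr_res (mi n V1) (mr hy) (hall u hu) (hall v hv)) hodd
    · refine toG fun u hu hu1 => ?_
      have : u ∈ {v | v ∈ ver P ∧ v ∈ V1} := ⟨hu, hu1⟩
      rw [h1] at this
      rw [Set.mem_singleton_iff.1 this]
      exact hm
    · exact absurd h1 (Set.singleton_ne_empty n)
  · refine hG _ _ _ _ (hP.congr fun u hu v hv => ?_) hodd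
    exact (ctr_adj_of_ne (fun (e : u = n) => hnP (e ▸ hu)) (hneP u hu)
      (fun (e : v = n) => hnP (e ▸ hv)) (hneP v hv)).symm

/-- lifting through a 1-join -/
theorem join_lift {V1 V2 N1 N2 : Set V} (hJ : Join1 G V1 V2 N1 N2) {n x y : V} (hn : n ∈ N2)
    (hG : NOP G) (hx : x ∈ insert n V1) (hy : y ∈ insert n V1)
    (h : EvP (res G (insert n V1)) x y) (h2 : NOP (ctr (res G (insert n V1)) x y)) :
    EvP G x y ∧ NOP (ctr G x y) := by
  have he := join_evp hJ hn hx hy h
  refine ⟨he, ?_⟩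
  rcases hx with rfl | hx
  · rcases hy with rfl | hy
    · exact absurd rfl he.1
    · exact join_nop2 hJ hn hG hy he.2.1 h2
  · rcases hy with rfl | hy
    · refine nop_swap he.1.symm ?_
      exact join_nop2 hJ hn hG hx (fun e => he.2.1 e.symm) (nop_swap he.1 h2)
    · exact join_nop1 hJ hn hG hx hy h2

end Pool.Agent.H20.ER2
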