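import Pool.Agent.H48.ER2.All

/-!
# MP_816b90_co: a clean vertex whose neighbourhood is not a clique has a good pair of neighbours
-/

set_option autoImplicit false

namespace Pool.Agent.H20.ER2

open Pool.Agent.H48.ER Pool.Agent.H52.ER2 Pool.Agent.H48.ER2

/-- a prism of an induced subgraph -/
theorem prism_of_res {V : Type} {G : SimpleGraph V} {C : Set V} {a b : Fin 3 → V}
    {n : Fin 3 → ℕ} {P : Fin 3 → Set V} (hP : Prism (res G C) a b n P) :
    Prism G a b n P ∧ ∀ w ∈ ver P, w ∈ C := by
  have hm : ∀ w ∈ ver P, w ∈ C := by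
    rintro w ⟨i, hi⟩
    exact Pool.Agent.H36.ER2.ip_res_mem (hP.ip i) (hP.pos i) w hi
  exact ⟨hP.congr fun a ha b hb => Pool.Agent.H36.ER2.res_adj_iff (hm a ha) (hm b hb), hm⟩

/-- in a prism-free graph of the class every set which is not a clique contains a good pair of the
graph induced by it -/
theorem prism_free_pair {V : Type} [Finite V] : ∀ (N : ℕ) (G : SimpleGraph V) (C : Set V),
    C.ncard ≤ N → Sup G C → Cls G →
    (∀ (a b : Fin 3 → V) (n : Fin 3 → ℕ) (P : Fin 3 → Set V), ¬ Prism G a b n P) →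
    ¬ Clq G C → ∃ x ∈ C, ∃ y ∈ C, Gd G x y := by
  intro N
  induction N with
  | zero =>
    intro G C hN _ _ _ hcl
    exfalso
    apply hcl
    have h0 : C = ∅ := (Set.ncard_eq_zero (Set.toFinite _)).mp (by omega)
    rw [h0]
    intro x hx
    exact hx.elim
  | succ N ih =>
    intro G C hN hS hG hP hcl
    by_cases hn : ∀ u, Clq G {w | G.Adj u w}
    · unfold Clq at hcl
      push Not at hcl
      obtain ⟨x, hx, y, hy, hxy, hnxy⟩ := hcl
      exact ⟨x, hx, y, hy, c_DUC V G x y hG hn hxy hnxy⟩
    · push Not at hn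
      obtain ⟨u, hu⟩ := hn
      obtain ⟨x, y, hx, hy, hg⟩ := c_VT V G u hG (no_prism G hP u).1 (no_prism G hP u).2 hu (by
        intro D hD hDc
        have hne : D.Nonempty := by
          by_contra h
          rw [Set.not_nonempty_iff_eq_empty] at h
          apply hDc
          rw [h]
          intro x hx
          exact hx.elim
        obtain ⟨c, hc⟩ := hne
        have huC : u ∈ C := (hS u c (hD hc)).1
        have hsub : D ⊂ C := by
          refine ⟨fun w hw => (hS u w (hD hw)).2, fun hle => ?_⟩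
          exact G.loopless.irrefl u (hD (hle huC))
        have hlt := Set.ncard_lt_ncard hsub (Set.toFinite _)
        exact ih (res G D) D (by omega) (res_sup G D) (c_RES V G D hG)
          (fun a b n P h => hP a b n P (prism_of_res h).1) (fun h => hDc ((res_clq G D).mp h)))
      exact ⟨x, (hS u x hx).2, y, (hS u y hy).2, hg⟩

/-- a vertex which is not a corner and tame, and whose neighbourhood is not a clique, has two
neighbours which form a good pair; no condition on cliques -/
theorem clean_vertex {V : Type} [Finite V] (G : SimpleGraph V) (v : V) (hG : Cls G)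
    (hc : NCo G v) (ht : Tame G v) (hcl : ¬ Clq G {w | G.Adj v w}) :
    ∃ x y, G.Adj v x ∧ G.Adj v y ∧ Gd G x y := by
  refine c_VT V G v hG hc ht hcl ?_
  intro C hC hCc
  refine prism_free_pair _ (res G C) C le_rfl (res_sup G C) (c_RES V G C hG) ?_
    (fun h => hCc ((res_clq G C).mp h))
  intro a b n P hP
  obtain ⟨hP', hm⟩ := prism_of_res hP
  have hv : v ∉ ver P := fun h => G.loopless.irrefl v (hC (hm v h))
  have hadj : ∀ i, G.Adj v (a i) ∧ G.Adj v (b i) := fun i =>
    ⟨hC (hm _ ⟨i, hP.a_mem i⟩), hC (hm _ ⟨i, hP.b_mem i⟩)⟩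
  exact ht a b n P hP' hv ⟨⟨0, 1, by decide, (hadj 0).1, (hadj 1).1⟩,
    ⟨0, 1, by decide, (hadj 0).2, (hadj 1).2⟩⟩

/-- the same as a closed statement -/
theorem clean_vertex_closed : ∀ (V : Type) [Finite V] (G : SimpleGraph V) (v : V), Cls G →
    NCo G v → Tame G v → ¬ Clq G {w | G.Adj v w} →
    ∃ x y, G.Adj v x ∧ G.Adj v y ∧ Gd G x y :=
  fun _ _ G v h1 h2 h3 h4 => clean_vertex G v h1 h2 h3 h4

end Pool.Agent.H20.ER2
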